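import Pool.Agent.StableX.Classes

/-!
# Stability modulo a prime forces non-residues in the critical orbit
-/

namespace Pool.Agent.StableX

open Polynomial NumberTheorySymbols

/-- If `H` and `H(X ^ 2)` are irreducible over a finite field of odd characteristic then
`(-1) ^ deg H * H(0)` is not a square. -/
theorem not_isSquare_of_irreducible {K : Type*} [Field K] [Fintype K] (hK : ringChar K ≠ 2)
    {H : K[X]} (hm : H.Monic) (hH : Irreducible H) (hH2 : Irreducible (H.comp (X ^ 2))) :
    ¬ IsSquare ((-1) ^ H.natDegree * H.coeff 0) := by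
  have hfact : Fact (Irreducible H) := ⟨hH⟩
  have hfin := hm.finite_adjoinRoot
  have hfin2 : Finite (AdjoinRoot H) := Module.finite_of_finite K
  have hft : Fintype (AdjoinRoot H) := Fintype.ofFinite _
  set γ : AdjoinRoot H := AdjoinRoot.root H with hγ
  have hpb := AdjoinRoot.minpoly_powerBasis_gen_of_monic hm
  have hnorm : Algebra.norm K γ = (-1) ^ H.natDegree * H.coeff 0 := by
    have h1 := Algebra.PowerBasis.norm_gen_eq_coeff_zero_minpoly (AdjoinRoot.powerBasis hm.ne_zero)
    rw [hpb, AdjoinRoot.powerBasis_gen, AdjoinRoot.powerBasis_dim] at h1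
    exact h1
  intro hsq
  rw [← hnorm] at hsq
  obtain ⟨c, hc⟩ := hsq
  -- `γ` is a square in `L`
  have hcardK : Fintype.card K = Nat.card K := (Nat.card_eq_fintype_card).symm
  have hcardL : Fintype.card (AdjoinRoot H) = Nat.card (AdjoinRoot H) :=
    (Nat.card_eq_fintype_card).symm
  have hinj := (algebraMap K (AdjoinRoot H)).injective
  have hcharL : ringChar (AdjoinRoot H) ≠ 2 := by
    have := charP_of_injective_algebraMap hinj (ringChar K)
    rwa [ringChar.eq (AdjoinRoot H) (ringChar K)]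
  have hsqL : IsSquare γ := by
    by_cases hγ0 : γ = 0
    · rw [hγ0]; exact IsSquare.zero
    rw [FiniteField.isSquare_iff hcharL hγ0]
    have h1 := FiniteField.algebraMap_norm_eq_pow (K := K) (x := γ)
    rw [hc, ← hcardK, ← hcardL] at h1
    have hc0 : c ≠ 0 := by
      rintro rfl
      rw [mul_zero, map_zero] at h1
      exact pow_ne_zero _ hγ0 h1.symm
    have hoddK := FiniteField.odd_card_of_char_ne_two hK
    have hoddL := FiniteField.odd_card_of_char_ne_two hcharL
    have hdvd : Fintype.card K - 1 ∣ Fintype.card (AdjoinRoot H) - 1 := by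
      rw [Module.card_eq_pow_finrank (K := K) (V := AdjoinRoot H)]
      exact Nat.sub_one_dvd_pow_sub_one _ _
    obtain ⟨t, ht⟩ := hdvd
    have hK1 : 1 < Fintype.card K := Fintype.one_lt_card
    have h2 : Fintype.card (AdjoinRoot H) / 2 = t * (Fintype.card K / 2) := by
      obtain ⟨u, hu⟩ : ∃ u, Fintype.card K = 2 * u + 1 := ⟨Fintype.card K / 2, by omega⟩
      obtain ⟨v, hv⟩ : ∃ v, Fintype.card (AdjoinRoot H) = 2 * v + 1 :=
        ⟨Fintype.card (AdjoinRoot H) / 2, by omega⟩
      rw [hu, hv] at ht ⊢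
      have e1 : (2 * v + 1) / 2 = v := by omega
      have e2 : (2 * u + 1) / 2 = u := by omega
      rw [e1, e2]
      have e3 : 2 * v = 2 * (t * u) := by
        simp only [Nat.add_sub_cancel] at ht
        rw [ht]; ring
      omega
    have h3 : (Fintype.card (AdjoinRoot H) - 1) / (Fintype.card K - 1) = t := by
      rw [ht, Nat.mul_div_cancel_left _ (by omega)]
    rw [h3] at h1
    rw [h2, pow_mul, ← h1, ← map_pow, ← sq, ← pow_mul]
    have h4 : 2 * (Fintype.card K / 2) = Fintype.card K - 1 := by omega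
    rw [h4, FiniteField.pow_card_sub_one_eq_one c hc0, map_one]
  obtain ⟨δ, hδ⟩ := hsqL
  -- `δ` is a root of `H(X ^ 2)`
  have hroot : aeval δ (H.comp (X ^ 2)) = 0 := by
    rw [aeval_comp]
    simp only [map_pow, aeval_X]
    rw [sq, ← hδ, hγ, AdjoinRoot.aeval_eq, AdjoinRoot.mk_self]
  have hdeg : (H.comp (X ^ 2)).natDegree = 2 * H.natDegree := by
    rw [natDegree_comp, natDegree_X_pow, mul_comm]
  have hmp := minpoly.eq_of_irreducible hH2 hroot
  have h5 : (minpoly K δ).natDegree = 2 * H.natDegree := by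
    rw [← hmp, natDegree_mul_C, hdeg]
    exact inv_ne_zero (leadingCoeff_ne_zero.2 hH2.ne_zero)
  have h6 : (minpoly K δ).natDegree ≤ Module.finrank K (AdjoinRoot H) := minpoly.natDegree_le δ
  have h7 : Module.finrank K (AdjoinRoot H) = H.natDegree := by
    rw [(AdjoinRoot.powerBasis hm.ne_zero).finrank, AdjoinRoot.powerBasis_dim]
  have h8 : 0 < H.natDegree := hH.natDegree_pos
  omega

/-- The `n`-th iterate of `X ^ 2 + 1`. -/
noncomputable def It (K : Type*) [CommRing K] (n : ℕ) : K[X] :=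
  (fun g : K[X] => (X ^ 2 + 1 : K[X]).comp g)^[n] X

section
variable (K : Type*) [CommRing K]

lemma It_zero : It K 0 = X := rfl

lemma It_succ' (n : ℕ) : It K (n + 1) = (X ^ 2 + 1 : K[X]).comp (It K n) := by
  unfold It
  rw [Function.iterate_succ_apply']

lemma It_succ (n : ℕ) : It K (n + 1) = (It K n).comp (X ^ 2 + 1) := by
  induction n with
  | zero => rw [It_succ', It_zero, comp_X, X_comp]
  | succ n ih =>
    rw [It_succ', ih, ← comp_assoc, ← It_succ', ih]

lemma It_one : It K 1 = X ^ 2 + 1 := by rw [It_succ', It_zero, comp_X]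

lemma It_succ_add (n : ℕ) : It K (n + 1) = (It K n) ^ 2 + 1 := by
  rw [It_succ']; simp

lemma eval_one_It (n : ℕ) : (It K n).eval 1 = (a (n + 1) : K) := by
  induction n with
  | zero => simp [It_zero, a]
  | succ n ih =>
    rw [It_succ_add, a_succ (n + 1)]
    simp [ih]

lemma monic_It [Nontrivial K] (n : ℕ) : (It K n).Monic ∧ (It K n).natDegree = 2 ^ n := by
  induction n with
  | zero => exact ⟨by rw [It_zero]; exact monic_X, by rw [It_zero, natDegree_X, pow_zero]⟩
  | succ n ih =>
    obtain ⟨h1, h2⟩ := ih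
    have h3 : ((It K n) ^ 2).Monic := h1.pow 2
    have h4 : ((It K n) ^ 2).natDegree = 2 ^ (n + 1) := by
      rw [h1.natDegree_pow, h2, pow_succ]; ring
    have h5 : (1 : K[X]).degree < ((It K n) ^ 2).degree := by
      rw [degree_one, degree_eq_natDegree h3.ne_zero, h4]
      exact_mod_cast (by positivity : 0 < 2 ^ (n + 1))
    rw [It_succ_add]
    refine ⟨h3.add_of_left h5, ?_⟩
    rw [natDegree_add_eq_left_of_degree_lt h5, h4]

end

/-- A composition can only be irreducible if its outer polynomial is. -/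
lemma irreducible_of_comp {K : Type*} [Field K] {g h : K[X]} (hh : h.natDegree ≠ 0)
    (H : Irreducible (g.comp h)) : Irreducible g := by
  have key : ∀ u : K[X], u ≠ 0 → IsUnit (u.comp h) → IsUnit u := by
    intro u hu hunit
    have h1 := natDegree_eq_zero_of_isUnit hunit
    rw [natDegree_comp] at h1
    have h2 : u.natDegree = 0 := by
      rcases Nat.mul_eq_zero.1 h1 with h3 | h3
      · exact h3
      · exact absurd h3 hh
    rw [Polynomial.isUnit_iff_degree_eq_zero, degree_eq_natDegree hu, h2]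
    rfl
  have hg0 : g ≠ 0 := by
    rintro rfl
    rw [zero_comp] at H
    exact H.ne_zero rfl
  refine ⟨fun hu => H.not_isUnit ?_, fun u v huv => ?_⟩
  · obtain ⟨c, hc, rfl⟩ := Polynomial.isUnit_iff.1 hu
    rw [C_comp]
    exact Polynomial.isUnit_C.2 hc
  · have hu0 : u ≠ 0 := by rintro rfl; exact hg0 (by rw [huv, zero_mul])
    have hv0 : v ≠ 0 := by rintro rfl; exact hg0 (by rw [huv, mul_zero])
    rw [huv, mul_comp] at H
    rcases H.isUnit_or_isUnit rfl with h1 | h1
    · exact Or.inl (key u hu0 h1)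
    · exact Or.inr (key v hv0 h1)

/-- The `n`-th iterate of `X ^ 2 + 1` is irreducible modulo `p`. -/
def Irr (n p : ℕ) : Prop :=
  Irreducible ((fun g : Polynomial (ZMod p) => (X ^ 2 + 1 : Polynomial (ZMod p)).comp g)^[n] X)

lemma Irr.mono {n m p : ℕ} (hp : p.Prime) (h : Irr n p) (hm : m ≤ n) : Irr m p := by
  have := Fact.mk hp
  obtain ⟨k, rfl⟩ : ∃ k, n = m + k := ⟨n - m, by omega⟩
  clear hm
  induction k with
  | zero => exact h
  | succ k ih =>
    apply ih
    have h1 : Irreducible (It (ZMod p) (m + k + 1)) := h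
    rw [It_succ] at h1
    refine irreducible_of_comp ?_ h1
    have : (X ^ 2 + 1 : (ZMod p)[X]).natDegree = 2 := by
      have := natDegree_X_pow_add_C (n := 2) (r := (1 : ZMod p))
      rwa [C_1] at this
    rw [this]; norm_num

lemma Irr.ne_two {n p : ℕ} (hn : 1 ≤ n) (hp : p.Prime) (h : Irr n p) : p ≠ 2 := by
  rintro rfl
  have h1 := h.mono hp hn
  have h2 : Irreducible (It (ZMod 2) 1) := h1
  rw [It_one] at h2
  have h3 : (X ^ 2 + 1 : (ZMod 2)[X]) = (X + 1) * (X + 1) := by
    have h4 : (2 : (ZMod 2)[X]) = 0 := by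
      have : ((2 : ℕ) : (ZMod 2)[X]) = 0 := CharP.cast_eq_zero _ 2
      exact_mod_cast this
    linear_combination (-X : (ZMod 2)[X]) * h4
  rw [h3] at h2
  have h5 : (X + 1 : (ZMod 2)[X]).natDegree = 1 := by
    have := natDegree_X_add_C (1 : ZMod 2)
    rwa [C_1] at this
  rcases h2.isUnit_or_isUnit rfl with h6 | h6 <;>
  · have := natDegree_eq_zero_of_isUnit h6
    omega

/-- If the `n`-th iterate is irreducible then `a 2, …, a n` are non-squares. -/
theorem Irr.not_isSquare {p N : ℕ} (hp : p.Prime) (h : Irr N p) (n : ℕ) (hn : 2 ≤ n)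
    (hnN : n ≤ N) : ¬ IsSquare ((a n : ℕ) : ZMod p) := by
  have := Fact.mk hp
  obtain ⟨m, rfl⟩ : ∃ m, n = m + 1 := ⟨n - 1, by omega⟩
  have hm : 1 ≤ m := by omega
  have h1 : Irreducible (It (ZMod p) m) := h.mono hp (by omega)
  have h2 : Irreducible (It (ZMod p) (m + 1)) := h.mono hp hnN
  obtain ⟨hmon, hdeg⟩ := monic_It (ZMod p) m
  set H := taylor (1 : ZMod p) (It (ZMod p) m) with hH
  have hHirr : Irreducible H := by
    have : H = taylorEquiv (1 : ZMod p) (It (ZMod p) m) := by
      rw [hH]; rfl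
    rw [this]
    exact (MulEquiv.irreducible_iff (taylorEquiv (1 : ZMod p))).2 h1
  have hHmon : H.Monic := by
    rw [hH, taylor_apply]
    exact hmon.comp_X_add_C 1
  have hHdeg : H.natDegree = 2 ^ m := by rw [hH, natDegree_taylor, hdeg]
  have hH2 : H.comp (X ^ 2) = It (ZMod p) (m + 1) := by
    rw [hH, taylor_apply, comp_assoc, It_succ]
    simp
  have hH0 : H.coeff 0 = ((a (m + 1) : ℕ) : ZMod p) := by
    rw [hH, taylor_coeff_zero, eval_one_It]
  have hchar : ringChar (ZMod p) ≠ 2 := by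
    rw [ZMod.ringChar_zmod_n]
    exact h.ne_two (by omega) hp
  have key := not_isSquare_of_irreducible hchar hHmon hHirr (by rw [hH2]; exact h2)
  have hev : Even H.natDegree := by
    rw [hHdeg]
    exact (Nat.even_pow.2 ⟨even_two, by omega⟩)
  rw [hev.neg_one_pow, one_mul, hH0] at key
  exact key

theorem Irr.jacobi {p N : ℕ} (hp : p.Prime) (h : Irr N p) (n : ℕ) (hn : 2 ≤ n) (hnN : n ≤ N) :
    J((a n : ℤ) | p) = -1 := by
  have := Fact.mk hp
  rw [← jacobiSym.legendreSym.to_jacobiSym, legendreSym.eq_neg_one_iff']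
  exact h.not_isSquare hp n hn hnN

theorem Irr.coprime {p N : ℕ} (hN : 1 ≤ N) (hp : p.Prime) (h : Irr N p) : p.Coprime (q N) := by
  rw [hp.coprime_iff_not_dvd]
  intro hd
  unfold q at hd
  rcases (hp.dvd_mul).1 hd with h1 | h1
  · have h2 : p ∣ 2 ^ 2 := h1
    exact h.ne_two hN hp ((Nat.prime_dvd_prime_iff_eq hp Nat.prime_two).1 (hp.dvd_of_dvd_pow h2))
  · rw [hp.prime.dvd_finsetProd_iff] at h1
    obtain ⟨j, hj, hjd⟩ := h1
    apply h.not_isSquare hp j (Finset.mem_Icc.1 hj).1 (Finset.mem_Icc.1 hj).2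
    rw [(ZMod.natCast_eq_zero_iff _ _).2 hjd]
    exact IsSquare.zero

theorem Irr.mem_R {p N : ℕ} (hN : 1 ≤ N) (hp : p.Prime) (h : Irr N p) : p % q N ∈ R N := by
  have hc := h.coprime hN hp
  rw [StableX.mem_R]
  refine ⟨?_, ?_⟩
  · unfold U
    refine Finset.mem_filter.2 ⟨Finset.mem_range.2 (Nat.mod_lt _ (q_pos N)), ?_⟩
    have := (Nat.ModEq.symm (Nat.mod_modEq p (q N))).gcd_eq
    unfold Nat.Coprime at hc ⊢
    rw [← this]; exact hc
  · intro j hj
    rw [jacobi_mod_q hj hc]
    exact h.jacobi hp j (Finset.mem_Icc.1 hj).1 (Finset.mem_Icc.1 hj).2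

end Pool.Agent.StableX
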