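import Pool.Agent.Lib.Sieve.Residue

/-!
# An upper bound sieve for primes in residue classes

`card_primes_class_le`: a Brun–Titchmarsh type inequality with explicit constants, uniform in
the modulus.
-/

namespace Pool.Agent.StableX

open Finset Nat
open scoped ArithmeticFunction.omega

/-- reciprocals as a monoid homomorphism -/
noncomputable def invHom : ℕ →* ℝ where
  toFun n := (n : ℝ)⁻¹
  map_one' := by simp
  map_mul' m n := by push_cast; rw [mul_inv]

lemma sum_inv_factored_le (s : Finset ℕ) (hs : ∀ p ∈ s, p.Prime) (A : Finset ℕ)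
    (hA : ∀ n ∈ A, n ∈ Nat.factoredNumbers s) :
    ∑ n ∈ A, (n : ℝ)⁻¹ ≤ ∏ p ∈ s, (1 - (p : ℝ)⁻¹)⁻¹ := by
  have h := (EulerProduct.summable_and_hasSum_factoredNumbers_prod_filter_prime_geometric
    (f := invHom) (fun {p} hp => by
      change ‖(p : ℝ)⁻¹‖ < 1
      rw [norm_inv, Real.norm_natCast]
      exact inv_lt_one_of_one_lt₀ (by exact_mod_cast hp.one_lt)) s).2
  rw [Finset.filter_true_of_mem hs] at h
  classical
  let A' : Finset (Nat.factoredNumbers s) := A.attach.image fun n => ⟨n.1, hA n.1 n.2⟩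
  have h1 := sum_le_hasSum A' (fun i _ => by
    change (0 : ℝ) ≤ ((i.1 : ℕ) : ℝ)⁻¹
    positivity) h
  refine le_trans (le_of_eq ?_) h1
  rw [Finset.sum_image]
  · change _ = ∑ x ∈ A.attach, ((x.1 : ℕ) : ℝ)⁻¹
    rw [Finset.sum_attach A (fun n => (n : ℝ)⁻¹)]
  · intro x _ y _ hxy
    exact Subtype.ext (Subtype.mk.inj hxy)

/-- primes up to `T` not dividing `q` -/
def PP (T q : ℕ) : Finset ℕ := (Icc 1 T).filter fun p => p.Prime ∧ ¬ p ∣ q

lemma mem_PP {T q p : ℕ} : p ∈ PP T q ↔ p ≤ T ∧ p.Prime ∧ ¬ p ∣ q := by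
  unfold PP
  rw [Finset.mem_filter, Finset.mem_Icc]
  constructor
  · rintro ⟨h1, h2⟩; exact ⟨h1.2, h2⟩
  · rintro ⟨h1, h2⟩; exact ⟨⟨h2.1.pos, h1⟩, h2⟩

/-- their product -/
def PQ (T q : ℕ) : ℕ := ∏ p ∈ PP T q, p

lemma primeFactors_PQ (T q : ℕ) : (PQ T q).primeFactors = PP T q :=
  Nat.primeFactors_prod fun p hp => (mem_PP.1 hp).2.1

lemma squarefree_PQ (T q : ℕ) : Squarefree (PQ T q) := by
  unfold PQ
  refine Finset.squarefree_prod_of_pairwise_isCoprime ?_ ?_
  · intro x hx y hy hxy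
    rw [Function.onFun, ← Nat.coprime_iff_isRelPrime]
    exact (Nat.coprime_primes (mem_PP.1 hx).2.1 (mem_PP.1 hy).2.1).2 hxy
  · intro p hp
    exact (mem_PP.1 hp).2.1.prime.squarefree

/-- The prime factors of `n` not dividing `q`, multiplied together. -/
def cop (q n : ℕ) : ℕ := ∏ p ∈ n.primeFactors.filter (fun p => ¬ p ∣ q), p

lemma cop_dvd (q n : ℕ) : cop q n ∣ n := by
  unfold cop
  exact (Finset.prod_dvd_prod_of_subset _ _ _ (Finset.filter_subset _ _)).trans
    (Nat.prod_primeFactors_dvd n)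

lemma primeFactors_cop (q n : ℕ) : (cop q n).primeFactors =
    n.primeFactors.filter (fun p => ¬ p ∣ q) :=
  Nat.primeFactors_prod fun _ hp => Nat.prime_of_mem_primeFactors (mem_filter.1 hp).1

lemma cop_dvd_PQ {T q n : ℕ} (hn : n ∈ Icc 1 T) : cop q n ∣ PQ T q := by
  unfold cop PQ
  apply Finset.prod_dvd_prod_of_subset
  intro p hp
  obtain ⟨h1, h2⟩ := mem_filter.1 hp
  have h3 := Nat.le_of_mem_primeFactors h1
  exact mem_PP.2 ⟨h3.trans (mem_Icc.1 hn).2, Nat.prime_of_mem_primeFactors h1, h2⟩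

lemma fiber_le {T q l : ℕ} (hq : q ≠ 0) (hl : l ∣ PQ T q) :
    ∑ n ∈ (Icc 1 T).filter (fun n => cop q n = l), (n : ℝ)⁻¹ ≤
      (∏ p ∈ q.primeFactors, (1 - (p : ℝ)⁻¹)⁻¹) * ∏ p ∈ l.primeFactors, (1 / ((p : ℝ) - 1)) := by
  classical
  have hsq := (squarefree_PQ T q).squarefree_of_dvd hl
  have hl0 : l ≠ 0 := hsq.ne_zero
  have hlpos : 0 < l := Nat.pos_of_ne_zero hl0
  -- divide by `l`
  have h1 : ∑ n ∈ (Icc 1 T).filter (fun n => cop q n = l), (n : ℝ)⁻¹
      = (l : ℝ)⁻¹ * ∑ m ∈ ((Icc 1 T).filter (fun n => cop q n = l)).image (fun n => n / l),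
          (m : ℝ)⁻¹ := by
    rw [Finset.sum_image, Finset.mul_sum]
    · refine Finset.sum_congr rfl fun n hn => ?_
      have h2 : l ∣ n := by
        have := cop_dvd q n
        rwa [(mem_filter.1 hn).2] at this
      obtain ⟨m, rfl⟩ := h2
      rw [Nat.mul_div_cancel_left m hlpos]
      push_cast
      rw [mul_inv]
    · intro x hx y hy hxy
      have hx' : l ∣ x := by
        have := cop_dvd q x
        rwa [(mem_filter.1 hx).2] at this
      have hy' : l ∣ y := by
        have := cop_dvd q y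
        rwa [(mem_filter.1 hy).2] at this
      obtain ⟨m, rfl⟩ := hx'
      obtain ⟨m', rfl⟩ := hy'
      simp only [Nat.mul_div_cancel_left _ hlpos] at hxy
      rw [hxy]
  have hcop : Disjoint q.primeFactors l.primeFactors := by
    rw [Finset.disjoint_left]
    intro p hp hp'
    have h3 : p ∈ PP T q := by
      rw [← primeFactors_PQ]
      exact Nat.primeFactors_mono hl (squarefree_PQ T q).ne_zero hp'
    exact (mem_PP.1 h3).2.2 (Nat.dvd_of_mem_primeFactors hp)
  have h2 := sum_inv_factored_le (q.primeFactors ∪ l.primeFactors) (fun p hp => by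
    rcases mem_union.1 hp with h | h <;> exact Nat.prime_of_mem_primeFactors h)
    (((Icc 1 T).filter (fun n => cop q n = l)).image (fun n => n / l)) (by
      intro m hm
      obtain ⟨n, hn, rfl⟩ := mem_image.1 hm
      have h2 : l ∣ n := by
        have := cop_dvd q n
        rwa [(mem_filter.1 hn).2] at this
      obtain ⟨m, rfl⟩ := h2
      rw [Nat.mul_div_cancel_left m hlpos]
      have hn0 : l * m ≠ 0 := by
        have := (mem_Icc.1 (mem_filter.1 hn).1).1
        omega
      have hm0 : m ≠ 0 := fun h => hn0 (by rw [h, mul_zero])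
      refine ⟨hm0, fun p hp => ?_⟩
      rw [← Nat.mem_primeFactors_iff_mem_primeFactorsList] at hp
      have hp2 : p ∈ (l * m).primeFactors :=
        Nat.primeFactors_mono (Dvd.intro_left l rfl) hn0 hp
      by_cases hpq : p ∣ q
      · exact mem_union_left _ (Nat.mem_primeFactors.2 ⟨Nat.prime_of_mem_primeFactors hp, hpq, hq⟩)
      · refine mem_union_right _ ?_
        have h5 := (mem_filter.1 hn).2
        rw [← h5, primeFactors_cop]
        exact mem_filter.2 ⟨hp2, hpq⟩)
  rw [Finset.prod_union hcop] at h2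
  rw [h1]
  calc (l : ℝ)⁻¹ * ∑ m ∈ ((Icc 1 T).filter (fun n => cop q n = l)).image (fun n => n / l),
          (m : ℝ)⁻¹
      ≤ (l : ℝ)⁻¹ * ((∏ p ∈ q.primeFactors, (1 - (p : ℝ)⁻¹)⁻¹)
          * ∏ p ∈ l.primeFactors, (1 - (p : ℝ)⁻¹)⁻¹) :=
        mul_le_mul_of_nonneg_left h2 (by positivity)
    _ = (∏ p ∈ q.primeFactors, (1 - (p : ℝ)⁻¹)⁻¹)
          * ((l : ℝ)⁻¹ * ∏ p ∈ l.primeFactors, (1 - (p : ℝ)⁻¹)⁻¹) := by ring
    _ = _ := by
        congr 1
        have h3 : (l : ℝ)⁻¹ = ∏ p ∈ l.primeFactors, (p : ℝ)⁻¹ := by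
          conv_lhs => rw [← Nat.prod_primeFactors_of_squarefree hsq]
          push_cast
          rw [Finset.prod_inv_distrib]
        rw [h3, ← Finset.prod_mul_distrib]
        refine Finset.prod_congr rfl fun p hp => ?_
        have hp1 : (1 : ℝ) < p := by exact_mod_cast (Nat.prime_of_mem_primeFactors hp).one_lt
        have hp2 : (p : ℝ) - 1 ≠ 0 := by linarith
        have hp3 : (p : ℝ) ≠ 0 := by linarith
        have hp4 : 1 - (p : ℝ)⁻¹ ≠ 0 := by
          intro h
          apply hp2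
          field_simp at h
          linarith
        field_simp

/-- The sieve density. -/
noncomputable def G (T q : ℕ) : ℝ :=
  ∑ l ∈ (PQ T q).divisors, if (l : ℝ) ^ 2 ≤ (T : ℝ) ^ 2 then
    ∏ p ∈ l.primeFactors, (1 / ((p : ℝ) - 1)) else 0

lemma totient_inv (q : ℕ) (hq : q ≠ 0) :
    ∏ p ∈ q.primeFactors, (1 - (p : ℝ)⁻¹)⁻¹ = q / q.totient := by
  have h := Nat.totient_eq_mul_prod_factors q
  have h1 : ((q.totient : ℕ) : ℝ) = q * ∏ p ∈ q.primeFactors, (1 - (p : ℝ)⁻¹) := by
    have := congrArg (fun z : ℚ => (z : ℝ)) h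
    push_cast at this
    exact this
  have h2 : (0 : ℝ) < q.totient := by exact_mod_cast Nat.totient_pos.2 (Nat.pos_of_ne_zero hq)
  have h3 : ∏ p ∈ q.primeFactors, (1 - (p : ℝ)⁻¹) ≠ 0 := by
    intro h4
    rw [h4, mul_zero] at h1
    linarith
  have hq' : (q : ℝ) ≠ 0 := by exact_mod_cast hq
  rw [Finset.prod_inv_distrib, h1]
  field_simp

lemma G_ge (T q : ℕ) (hq : q ≠ 0) :
    Real.log (T + 1) ≤ (q / q.totient : ℝ) * G T q := by
  have h1 : Real.log (T + 1) ≤ ∑ n ∈ Icc 1 T, (n : ℝ)⁻¹ := by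
    have := log_add_one_le_harmonic T
    rw [harmonic_eq_sum_Icc] at this
    push_cast at this
    exact this
  refine h1.trans ?_
  have h2 : ∑ n ∈ Icc 1 T, (n : ℝ)⁻¹
      = ∑ l ∈ (PQ T q).divisors, ∑ n ∈ (Icc 1 T).filter (fun n => cop q n = l), (n : ℝ)⁻¹ := by
    rw [Finset.sum_fiberwise_of_maps_to]
    intro n hn
    exact Nat.mem_divisors.2 ⟨cop_dvd_PQ hn, (squarefree_PQ T q).ne_zero⟩
  rw [h2]
  unfold G
  rw [Finset.mul_sum]
  refine Finset.sum_le_sum fun l hl => ?_
  have hl' := (Nat.mem_divisors.1 hl).1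
  split_ifs with h
  · rw [← totient_inv q hq]
    exact fiber_le hq hl'
  · rw [mul_zero]
    rw [Finset.sum_eq_zero]
    intro n hn
    exfalso
    apply h
    have h5 := (mem_filter.1 hn).2
    have h6 := (mem_Icc.1 (mem_filter.1 hn).1)
    have h7 : l ≤ n := h5 ▸ Nat.le_of_dvd h6.1 (cop_dvd q n)
    have h8 : (l : ℝ) ≤ T := by exact_mod_cast h7.trans h6.2
    exact pow_le_pow_left₀ (by positivity) h8 2

lemma G_pos (T q : ℕ) (hT : 1 ≤ T) (hq : q ≠ 0) : 0 < G T q := by
  have h := G_ge T q hq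
  have h1 : 0 < Real.log (T + 1) := Real.log_pos (by
    have : (1 : ℝ) ≤ T := by exact_mod_cast hT
    linarith)
  have h2 : (0 : ℝ) < q.totient := by exact_mod_cast Nat.totient_pos.2 (Nat.pos_of_ne_zero hq)
  have h3 : (0 : ℝ) < q := by exact_mod_cast Nat.pos_of_ne_zero hq
  by_contra hG
  push Not at hG
  have : (q / q.totient : ℝ) * G T q ≤ 0 := mul_nonpos_of_nonneg_of_nonpos (by positivity) hG
  linarith

/-- the residue removed by `p` -/
def Om (q c p : ℕ) : Finset ℕ := (range p).filter fun r => p ∣ c + q * r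

lemma card_Om {q c p : ℕ} (hp : p.Prime) (hq : ¬ p ∣ q) : (Om q c p).card = 1 := by
  haveI := Fact.mk hp
  rw [Finset.card_eq_one]
  have hq0 : (q : ZMod p) ≠ 0 := by
    rw [Ne, ZMod.natCast_eq_zero_iff]; exact hq
  refine ⟨(-(c : ZMod p) * (q : ZMod p)⁻¹).val, ?_⟩
  ext r
  rw [Finset.mem_singleton, Om, Finset.mem_filter, Finset.mem_range]
  constructor
  · rintro ⟨h1, h2⟩
    rw [← ZMod.natCast_eq_zero_iff] at h2
    push_cast at h2
    have h3 : (r : ZMod p) = -(c : ZMod p) * (q : ZMod p)⁻¹ := by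
      rw [eq_mul_inv_iff_mul_eq₀ hq0]
      linear_combination h2
    rw [← h3, ZMod.val_natCast, Nat.mod_eq_of_lt h1]
  · rintro rfl
    refine ⟨ZMod.val_lt _, ?_⟩
    rw [← ZMod.natCast_eq_zero_iff]
    push_cast
    rw [ZMod.natCast_zmod_val]
    field_simp
    ring

lemma three_pow_le {d : ℕ} (hd : Squarefree d) : (3 : ℝ) ^ ω d ≤ (d : ℝ) ^ 2 := by
  have h1 : ω d = d.primeFactors.card := by
    rw [ArithmeticFunction.cardDistinctFactors_apply, ← List.card_toFinset]
    rfl
  rw [h1]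
  conv_rhs => rw [← Nat.prod_primeFactors_of_squarefree hd]
  push_cast
  rw [← Finset.prod_pow, ← Finset.prod_const]
  refine Finset.prod_le_prod (fun _ _ => by norm_num) fun p hp => ?_
  have : (2 : ℝ) ≤ p := by exact_mod_cast (Nat.prime_of_mem_primeFactors hp).two_le
  nlinarith

/-- **Upper bound sieve for primes in a residue class.** -/
theorem card_primes_class_le (T q c Y : ℕ) (hT : 1 ≤ T) (hq : 0 < q) :
    (((range (q * Y)).filter (fun n => n.Prime ∧ n % q = c)).card : ℝ) ≤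
      T + Y / G T q + (T : ℝ) ^ 6 := by
  classical
  have hT1 : (1 : ℝ) ≤ T := by exact_mod_cast hT
  have hPf := primeFactors_PQ T q
  have hsq := squarefree_PQ T q
  -- the sieve
  have hy : (1 : ℝ) ≤ (T : ℝ) ^ 2 := one_le_pow₀ hT1
  have hs := Pool.Agent.Lib.Sieve.selberg_residue (PQ T q) hsq (Om q c)
    (fun p _ => Finset.filter_subset _ _)
    (fun p hp => by
      rw [hPf] at hp
      rw [card_Om (mem_PP.1 hp).2.1 (mem_PP.1 hp).2.2]; norm_num)
    (fun p hp => by
      rw [hPf] at hp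
      rw [card_Om (mem_PP.1 hp).2.1 (mem_PP.1 hp).2.2]; exact (mem_PP.1 hp).2.1.one_lt)
    0 Y ((T : ℝ) ^ 2) hy
  have hGeq : (∑ l ∈ (PQ T q).divisors, if (l : ℝ) ^ 2 ≤ (T : ℝ) ^ 2 then
        ∏ p ∈ l.primeFactors, ((Om q c p).card : ℝ) / (p - (Om q c p).card) else 0) = G T q := by
    unfold G
    refine Finset.sum_congr rfl fun l hl => ?_
    have hl' := (Nat.mem_divisors.1 hl).1
    congr 1
    refine Finset.prod_congr rfl fun p hp => ?_
    have hp' : p ∈ PP T q := by rw [← hPf]; exact Nat.primeFactors_mono hl' hsq.ne_zero hp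
    rw [card_Om (mem_PP.1 hp').2.1 (mem_PP.1 hp').2.2]
    push_cast
    rfl
  rw [hGeq] at hs
  have hrem : (∑ d ∈ (PQ T q).divisors, if (d : ℝ) ≤ (T : ℝ) ^ 2 then
          (3 : ℝ) ^ ω d * ∏ p ∈ d.primeFactors, ((Om q c p).card : ℝ) else 0) ≤ (T : ℝ) ^ 6 := by
    rw [← Finset.sum_filter]
    calc ∑ d ∈ (PQ T q).divisors.filter (fun d : ℕ => (d : ℝ) ≤ (T : ℝ) ^ 2),
          (3 : ℝ) ^ ω d * ∏ p ∈ d.primeFactors, ((Om q c p).card : ℝ)
        ≤ ∑ d ∈ (PQ T q).divisors.filter (fun d : ℕ => (d : ℝ) ≤ (T : ℝ) ^ 2), ((T : ℝ) ^ 2) ^ 2 := by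
          refine Finset.sum_le_sum fun d hd => ?_
          obtain ⟨hd1, hd2⟩ := mem_filter.1 hd
          have hd' := (Nat.mem_divisors.1 hd1).1
          have h1 : ∏ p ∈ d.primeFactors, ((Om q c p).card : ℝ) = 1 := by
            apply Finset.prod_eq_one
            intro p hp
            have hp' : p ∈ PP T q := by rw [← hPf]; exact Nat.primeFactors_mono hd' hsq.ne_zero hp
            rw [card_Om (mem_PP.1 hp').2.1 (mem_PP.1 hp').2.2]
            norm_num
          rw [h1, mul_one]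
          exact (three_pow_le (hsq.squarefree_of_dvd hd')).trans
            (pow_le_pow_left₀ (by positivity) hd2 2)
      _ = (((PQ T q).divisors.filter (fun d : ℕ => (d : ℝ) ≤ (T : ℝ) ^ 2)).card : ℝ)
            * ((T : ℝ) ^ 2) ^ 2 := by rw [Finset.sum_const, nsmul_eq_mul]
      _ ≤ (T : ℝ) ^ 2 * ((T : ℝ) ^ 2) ^ 2 := by
          refine mul_le_mul_of_nonneg_right ?_ (by positivity)
          have h2 : ((PQ T q).divisors.filter (fun d : ℕ => (d : ℝ) ≤ (T : ℝ) ^ 2)) ⊆ Icc 1 (T ^ 2) := by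
            intro d hd
            obtain ⟨hd1, hd2⟩ := mem_filter.1 hd
            refine mem_Icc.2 ⟨Nat.pos_of_mem_divisors hd1, ?_⟩
            exact_mod_cast hd2
          have h3 := Finset.card_le_card h2
          rw [Nat.card_Icc] at h3
          have h4 : ((PQ T q).divisors.filter (fun d : ℕ => (d : ℝ) ≤ (T : ℝ) ^ 2)).card ≤ T ^ 2 := by
            omega
          exact_mod_cast h4
      _ = (T : ℝ) ^ 6 := by ring
  -- reduction to the sieve
  have hmap : ((range (q * Y)).filter (fun n => n.Prime ∧ n % q = c)).card ≤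
      T + ((Ico 0 (0 + Y)).filter (fun n => ∀ p ∈ (PQ T q).primeFactors, n % p ∉ Om q c p)).card := by
    have h1 : ((range (q * Y)).filter (fun n => n.Prime ∧ n % q = c)) ⊆
        (Icc 1 T) ∪ ((Ico 0 (0 + Y)).filter
          (fun n => ∀ p ∈ (PQ T q).primeFactors, n % p ∉ Om q c p)).image (fun m => c + q * m) := by
      intro n hn
      obtain ⟨hn1, hn2, hn3⟩ := mem_filter.1 hn
      rw [mem_union]
      by_cases hnT : n ≤ T
      · left; exact mem_Icc.2 ⟨hn2.pos, hnT⟩
      · right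
        refine mem_image.2 ⟨n / q, ?_, ?_⟩
        · refine mem_filter.2 ⟨?_, ?_⟩
          · rw [mem_Ico]
            refine ⟨Nat.zero_le _, ?_⟩
            rw [zero_add]
            exact Nat.div_lt_of_lt_mul (mem_range.1 hn1)
          · intro p hp hmem
            rw [hPf] at hp
            obtain ⟨hp1, hp2, hp3⟩ := mem_PP.1 hp
            have h5 := (mem_filter.1 hmem).2
            have h6 : p ∣ n := by
              have h7 : n ≡ c + q * (n / q % p) [MOD p] := by
                have h8 : n = c + q * (n / q) := by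
                  conv_lhs => rw [← Nat.mod_add_div n q]
                  rw [hn3]
                conv_lhs => rw [h8]
                exact Nat.ModEq.add_left _ (Nat.ModEq.mul_left _ (Nat.mod_modEq _ _).symm)
              exact (h7.dvd_iff (dvd_refl _)).2 h5
            have h9 := (Nat.prime_dvd_prime_iff_eq hp2 hn2).1 h6
            omega
        · rw [← hn3]
          exact Nat.mod_add_div n q
    refine (Finset.card_le_card h1).trans ((Finset.card_union_le _ _).trans ?_)
    rw [Nat.card_Icc]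
    exact Nat.add_le_add (by omega) Finset.card_image_le
  have h5 : (((range (q * Y)).filter (fun n => n.Prime ∧ n % q = c)).card : ℝ) ≤
      T + (((Ico 0 (0 + Y)).filter
        (fun n => ∀ p ∈ (PQ T q).primeFactors, n % p ∉ Om q c p)).card : ℝ) := by
    exact_mod_cast hmap
  refine h5.trans ?_
  rw [add_assoc]
  refine add_le_add le_rfl (hs.trans (add_le_add le_rfl hrem))

end Pool.Agent.StableX
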