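import Pool.Agent.StableX.Orbit

/-!
# The residue classes in which all of `a 2, …, a N` are non-residues
-/

namespace Pool.Agent.StableX

open NumberTheorySymbols Finset

/-- The modulus. -/
def q (N : ℕ) : ℕ := 4 * ∏ j ∈ Icc 2 N, a j

lemma q_pos (N : ℕ) : 0 < q N := by
  unfold q
  refine Nat.mul_pos (by norm_num) (Finset.prod_pos fun j hj => ?_)
  have := a_ge_two j (mem_Icc.1 hj).1
  omega

lemma four_mul_a_dvd_q {N j : ℕ} (hj : j ∈ Icc 2 N) : 4 * a j ∣ q N :=
  Nat.mul_dvd_mul_left 4 (Finset.dvd_prod_of_mem a hj)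

/-- Units modulo `q N`, as natural numbers. -/
def U (N : ℕ) : Finset ℕ := (range (q N)).filter fun c => c.Coprime (q N)

/-- All `a j`, `2 ≤ j ≤ N`, have symbol `-1` modulo `c`. -/
def AllNeg (N c : ℕ) : Prop := ∀ j ∈ Icc 2 N, J((a j : ℤ) | c) = -1

noncomputable instance (N c : ℕ) : Decidable (AllNeg N c) := Classical.propDecidable _

/-- Residue classes modulo `q N` in which all `a j`, `2 ≤ j ≤ N`, are non-residues. -/
noncomputable def R (N : ℕ) : Finset ℕ := (U N).filter fun c => AllNeg N c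

lemma mem_R {N c : ℕ} : c ∈ R N ↔ c ∈ U N ∧ AllNeg N c := by
  unfold R
  rw [Finset.mem_filter]

lemma card_U (N : ℕ) : (U N).card = (q N).totient := by
  rw [Nat.totient_eq_card_coprime]
  unfold U
  congr 1
  apply Finset.filter_congr
  intro c _
  exact Nat.coprime_comm

lemma odd_of_coprime_q {N c : ℕ} (h : c.Coprime (q N)) : Odd c := by
  have h2 : (2 : ℕ) ∣ q N := ⟨2 * ∏ j ∈ Icc 2 N, a j, by unfold q; ring⟩
  rcases Nat.even_or_odd c with h3 | h3
  · exfalso
    have := Nat.dvd_gcd h3.two_dvd h2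
    rw [h] at this
    exact absurd this (by norm_num)
  · exact h3

lemma jacobi_mod_q {N j c : ℕ} (hj : j ∈ Icc 2 N) (hc : c.Coprime (q N)) :
    J((a j : ℤ) | c % q N) = J((a j : ℤ) | c) := by
  have ho := odd_of_coprime_q hc
  have hc' : (c % q N).Coprime (q N) := by
    have := (Nat.ModEq.symm (Nat.mod_modEq c (q N))).gcd_eq
    unfold Nat.Coprime at hc ⊢
    rw [← this]; exact hc
  rw [jacobiSym.mod_right' _ ho, jacobiSym.mod_right' _ (odd_of_coprime_q hc')]
  rw [Nat.mod_mod_of_dvd _ (four_mul_a_dvd_q hj)]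

/-- the product of the symbols over a set of indices -/
def F (T : Finset ℕ) (c : ℕ) : ℤ := ∏ j ∈ T, J((a j : ℤ) | c)

lemma F_mul {N : ℕ} (T : Finset ℕ) {c g : ℕ} (hc : c.Coprime (q N)) (hg : g.Coprime (q N)) :
    F T (c * g) = F T c * F T g := by
  unfold F
  rw [← Finset.prod_mul_distrib]
  refine Finset.prod_congr rfl fun j _ => ?_
  have h1 := (odd_of_coprime_q hc).pos
  have h2 := (odd_of_coprime_q hg).pos
  exact jacobiSym.mul_right' _ h1.ne' h2.ne'

lemma F_mod {N : ℕ} {T : Finset ℕ} (hT : T ⊆ Icc 2 N) {c : ℕ} (hc : c.Coprime (q N)) :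
    F T (c % q N) = F T c :=
  Finset.prod_congr rfl fun j hj => jacobi_mod_q (hT hj) hc

lemma sum_U_mul {N : ℕ} {g : ℕ} (hg : g.Coprime (q N)) (h : ℕ → ℤ) :
    ∑ c ∈ U N, h ((c * g) % q N) = ∑ c ∈ U N, h c := by
  have hinj : Set.InjOn (fun c => (c * g) % q N) (U N) := by
    intro c hc c' hc' hcc
    have h1 : c * g ≡ c' * g [MOD q N] := hcc
    have h2 : c ≡ c' [MOD q N] := Nat.ModEq.cancel_right_of_coprime (by
      rw [Nat.gcd_comm]; exact hg) h1
    have h3 := (mem_range.1 (mem_filter.1 hc).1)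
    have h4 := (mem_range.1 (mem_filter.1 hc').1)
    exact h2.eq_of_lt_of_lt h3 h4
  have hmaps : (U N).image (fun c => (c * g) % q N) ⊆ U N := by
    intro d hd
    obtain ⟨c, hc, rfl⟩ := mem_image.1 hd
    refine mem_filter.2 ⟨mem_range.2 (Nat.mod_lt _ (q_pos N)), ?_⟩
    have h1 : (c * g).Coprime (q N) := Nat.Coprime.mul_left (mem_filter.1 hc).2 hg
    have := (Nat.ModEq.symm (Nat.mod_modEq (c * g) (q N))).gcd_eq
    unfold Nat.Coprime at h1 ⊢
    rw [← this]; exact h1
  have heq : (U N).image (fun c => (c * g) % q N) = U N := by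
    apply Finset.eq_of_subset_of_card_le hmaps
    rw [Finset.card_image_of_injOn hinj]
  conv_rhs => rw [← heq]
  rw [Finset.sum_image hinj]

/-- some unit class on which the product character is `-1` -/
lemma exists_F_neg {N : ℕ} {T : Finset ℕ} (hT : T ⊆ Icc 2 N) (hne : T.Nonempty) :
    ∃ g : ℕ, g.Coprime (q N) ∧ F T g = -1 := by
  have hcop : ∀ k, 1 ≤ k → (M k).Coprime (q N) := by
    intro k hk
    unfold q
    have h4 : (M k).Coprime 4 := by
      have h2 : (M k).Coprime (2 ^ 2) := Nat.Coprime.pow_right 2 (M_odd k).coprime_two_right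
      exact h2
    refine Nat.Coprime.mul_right h4 ?_
    refine Nat.Coprime.prod_right fun j hj => ?_
    exact (coprime_M k j (by have := (mem_Icc.1 hj).1; omega)).symm
  by_cases hodd : Odd T.card
  · refine ⟨M 1, hcop 1 le_rfl, ?_⟩
    unfold F
    rw [Finset.prod_congr rfl (g := fun _ => (-1 : ℤ))]
    · rw [Finset.prod_const, hodd.neg_one_pow]
    · intro j hj
      exact jacobi_gt 1 j le_rfl (mem_Icc.1 (hT hj)).1
  · have hk := T.min'_mem hne
    set k := T.min' hne with hkdef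
    have hk2 : 2 ≤ k := (mem_Icc.1 (hT hk)).1
    refine ⟨M k, hcop k (by omega), ?_⟩
    unfold F
    rw [← Finset.mul_prod_erase T _ hk, jacobi_self k (by omega), one_mul,
      Finset.prod_congr rfl (g := fun _ => (-1 : ℤ))]
    · rw [Finset.prod_const, Finset.card_erase_of_mem hk]
      have h1 : Even T.card := Nat.not_odd_iff_even.1 hodd
      have h2 : 0 < T.card := Finset.card_pos.2 hne
      have h3 : Odd (T.card - 1) := Nat.Even.sub_odd h2 h1 odd_one
      exact h3.neg_one_pow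
    · intro j hj
      obtain ⟨h1, h2⟩ := Finset.mem_erase.1 hj
      refine jacobi_gt k j (by omega) ?_
      have h3 : k ≤ j := Finset.min'_le T j h2
      omega

lemma sum_F_eq_zero {N : ℕ} {T : Finset ℕ} (hT : T ⊆ Icc 2 N) (hne : T.Nonempty) :
    ∑ c ∈ U N, F T c = 0 := by
  obtain ⟨g, hg, hF⟩ := exists_F_neg hT hne
  have h1 := sum_U_mul hg (F T)
  have h2 : ∑ c ∈ U N, F T ((c * g) % q N) = ∑ c ∈ U N, F T c * (-1) := by
    refine Finset.sum_congr rfl fun c hc => ?_
    have hc' := (mem_filter.1 hc).2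
    rw [F_mod hT (Nat.Coprime.mul_left hc' hg), F_mul T hc' hg, hF]
  rw [h2, ← Finset.sum_mul] at h1
  linarith

/-- The number of classes is `φ(q) / 2 ^ (N - 1)`. -/
theorem card_R (N : ℕ) : (R N).card * 2 ^ (N - 1) = (q N).totient := by
  have hcard : (Icc 2 N).card = N - 1 := by simp
  have key : ∀ c ∈ U N, (∏ j ∈ Icc 2 N, (1 - J((a j : ℤ) | c)) : ℤ)
      = if AllNeg N c then 2 ^ (N - 1) else 0 := by
    intro c hc
    have hc' := (mem_filter.1 hc).2
    split_ifs with h
    · rw [Finset.prod_congr rfl (g := fun _ => (2 : ℤ)) (fun j hj => by rw [h j hj]; norm_num),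
        Finset.prod_const, hcard]
    · unfold AllNeg at h
      push Not at h
      obtain ⟨j, hj, hj2⟩ := h
      apply Finset.prod_eq_zero hj
      have h1 : (a j : ℤ).gcd c = 1 := by
        have h2 : c.Coprime (a j) := Nat.Coprime.coprime_dvd_right
          ((Dvd.intro_left 4 rfl).trans (four_mul_a_dvd_q hj)) hc'
        rw [Int.gcd_natCast_natCast]
        exact h2.symm
      rcases jacobiSym.eq_one_or_neg_one h1 with h2 | h2
      · rw [h2]; norm_num
      · exact absurd h2 hj2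
  have h1 : ∑ c ∈ U N, (∏ j ∈ Icc 2 N, (1 - J((a j : ℤ) | c)) : ℤ) = (R N).card * 2 ^ (N - 1) := by
    rw [Finset.sum_congr rfl key, ← Finset.sum_filter, Finset.sum_const, nsmul_eq_mul]
    rfl
  have h2 : ∑ c ∈ U N, (∏ j ∈ Icc 2 N, (1 - J((a j : ℤ) | c)) : ℤ) = (U N).card := by
    have h3 : ∀ c : ℕ, (∏ j ∈ Icc 2 N, (1 - J((a j : ℤ) | c)) : ℤ)
        = ∑ T ∈ (Icc 2 N).powerset, (-1) ^ T.card * F T c := by
      intro c
      have h4 : ∀ j ∈ Icc 2 N, (1 - J((a j : ℤ) | c) : ℤ) = -J((a j : ℤ) | c) + 1 := by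
        intro j _; ring
      rw [Finset.prod_congr rfl h4, Finset.prod_add]
      refine Finset.sum_congr rfl fun T _ => ?_
      rw [Finset.prod_const_one, mul_one, F, Finset.prod_neg]
    rw [Finset.sum_congr rfl fun c _ => h3 c, Finset.sum_comm]
    rw [Finset.sum_eq_single (∅ : Finset ℕ)]
    · simp [F]
    · intro T hT hne
      rw [← Finset.mul_sum, sum_F_eq_zero (Finset.mem_powerset.1 hT)
        (Finset.nonempty_iff_ne_empty.2 hne), mul_zero]
    · intro h
      exact absurd (Finset.empty_mem_powerset _) h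
  rw [h1, card_U] at h2
  exact_mod_cast h2

/-- size of the modulus -/
lemma a_lt (n : ℕ) : a (n + 1) + 1 ≤ 2 ^ 2 ^ n := by
  induction n with
  | zero => decide
  | succ n ih =>
    rw [a_succ, pow_succ 2 n, pow_mul]
    have h1 : a (n + 1) ≤ 2 ^ 2 ^ n - 1 := by omega
    have h2 : a (n + 1) ^ 2 ≤ (2 ^ 2 ^ n - 1) ^ 2 := Nat.pow_le_pow_left h1 2
    obtain ⟨m, hm⟩ : ∃ m, 2 ^ 2 ^ n = m + 2 := ⟨2 ^ 2 ^ n - 2, by
      have : 2 ^ 1 ≤ 2 ^ 2 ^ n := Nat.pow_le_pow_right (by norm_num) (Nat.one_le_two_pow)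
      omega⟩
    rw [hm] at h2 ⊢
    have h3 : m + 2 - 1 = m + 1 := rfl
    rw [h3] at h2
    nlinarith

lemma q_le (N : ℕ) (hN : 1 ≤ N) : q N ≤ 2 ^ 2 ^ N := by
  induction N, hN using Nat.le_induction with
  | base => decide
  | succ N hN ih =>
    have h1 : q (N + 1) = q N * a (N + 1) := by
      unfold q
      rw [Finset.prod_Icc_succ_top (by omega)]
      ring
    rw [h1, pow_succ 2 N, pow_mul, sq]
    have := a_lt N
    exact Nat.mul_le_mul ih (by omega)

end Pool.Agent.StableX
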