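import Pool.Agent.StableX.Alg
import Pool.Agent.StableX.Sieve

/-!
# Counting the primes modulo which `X ^ 2 + 1` is stable
-/

namespace Pool.Agent.StableX

open Finset

/-- The primes up to `x` modulo which the `n`-th iterate is irreducible. -/
noncomputable def S (n x : ℕ) : Finset ℕ := by
  classical exact (range (x + 1)).filter fun p => p.Prime ∧ Irr n p

lemma mem_S {n x p : ℕ} : p ∈ S n x ↔ p ≤ x ∧ p.Prime ∧ Irr n p := by
  classical
  unfold S
  rw [Finset.mem_filter, Finset.mem_range, Nat.lt_succ_iff]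

/-- Sum of the sieve bounds over the classes in `R N`. -/
lemma card_S_le (x N T : ℕ) (hN : 1 ≤ N) (hT : 1 ≤ T) :
    ((S N x).card : ℝ) ≤
      ((R N).card : ℝ) * (T + ((x / q N + 1 : ℕ) : ℝ) / G T (q N) + (T : ℝ) ^ 6) := by
  classical
  have h1 : S N x ⊆ (R N).biUnion fun c =>
      (range (q N * (x / q N + 1))).filter (fun n => n.Prime ∧ n % q N = c) := by
    intro p hp
    obtain ⟨h1, h2, h3⟩ := mem_S.1 hp
    rw [Finset.mem_biUnion]
    refine ⟨p % q N, h3.mem_R hN h2, Finset.mem_filter.2 ⟨Finset.mem_range.2 ?_, h2, rfl⟩⟩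
    refine lt_of_le_of_lt h1 ?_
    exact Nat.lt_mul_div_succ x (q_pos N)
  have h2 : ((S N x).card : ℝ) ≤ ∑ c ∈ R N, (((range (q N * (x / q N + 1))).filter
      (fun n => n.Prime ∧ n % q N = c)).card : ℝ) := by
    exact_mod_cast (Finset.card_le_card h1).trans Finset.card_biUnion_le
  refine h2.trans ?_
  rw [← nsmul_eq_mul, ← Finset.sum_const]
  exact Finset.sum_le_sum fun c _ => card_primes_class_le T (q N) c _ hT (q_pos N)

lemma card_R_le_q (N : ℕ) : (R N).card ≤ q N := by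
  have : R N ⊆ range (q N) := by
    intro c hc
    exact (Finset.mem_filter.1 (mem_R.1 hc).1).1
  simpa using Finset.card_le_card this

/-- the main term -/
lemma main_term (x N T : ℕ) (hT : 1 ≤ T) (hN : 1 ≤ N) (hq : q N ≤ x) :
    ((R N).card : ℝ) * (((x / q N + 1 : ℕ) : ℝ) / G T (q N)) ≤
      4 * x / (2 ^ N * Real.log (T + 1)) := by
  have hq0 : q N ≠ 0 := (q_pos N).ne'
  have hqpos : (0 : ℝ) < q N := by exact_mod_cast q_pos N
  have hG := G_pos T (q N) hT hq0
  have hG2 := G_ge T (q N) hq0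
  have hφ : (0 : ℝ) < (q N).totient := by exact_mod_cast Nat.totient_pos.2 (q_pos N)
  have hR : ((R N).card : ℝ) * 2 ^ (N - 1) = (q N).totient := by exact_mod_cast card_R N
  have hlog : 0 < Real.log (T + 1) := Real.log_pos (by
    have : (1 : ℝ) ≤ T := by exact_mod_cast hT
    linarith)
  have hY : ((x / q N + 1 : ℕ) : ℝ) ≤ 2 * x / q N := by
    push_cast
    have h1 : ((x / q N : ℕ) : ℝ) ≤ x / q N := Nat.cast_div_le
    have h2 : (1 : ℝ) ≤ x / q N := by
      rw [le_div_iff₀ hqpos, one_mul]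
      exact_mod_cast hq
    have h3 : (2 : ℝ) * x / q N = x / q N + x / q N := by ring
    rw [h3]
    exact add_le_add h1 h2
  have h2N : (2 : ℝ) ^ N = 2 ^ (N - 1) * 2 := by
    rw [← pow_succ]; congr 1; omega
  have hRe : ((R N).card : ℝ) = (q N).totient / 2 ^ (N - 1) := by
    rw [eq_div_iff (by positivity)]; exact hR
  rw [hRe, h2N]
  have h2' : (0 : ℝ) < 2 ^ (N - 1) := by positivity
  have key : (((x / q N + 1 : ℕ) : ℝ) / G T (q N)) ≤
      (2 * x / q N) * ((q N / (q N).totient) / Real.log (T + 1)) := by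
    rw [div_eq_mul_one_div]
    refine mul_le_mul hY ?_ (by positivity) (by positivity)
    rw [div_le_div_iff₀ hG hlog, one_mul]
    exact hG2
  calc ((q N).totient / 2 ^ (N - 1) : ℝ) * (((x / q N + 1 : ℕ) : ℝ) / G T (q N))
      ≤ ((q N).totient / 2 ^ (N - 1) : ℝ) *
        ((2 * x / q N) * ((q N / (q N).totient) / Real.log (T + 1))) :=
        mul_le_mul_of_nonneg_left key (by positivity)
    _ = 4 * x / (2 ^ (N - 1) * 2 * Real.log (T + 1)) := by
        field_simp
        ring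

/-- **Uniform count.** The number of primes up to `x` modulo which the `n`-th iterate is
irreducible, uniformly for `2 ^ 2 ^ (n + 1) ≤ x`. -/
theorem card_S_uniform (N x : ℕ) (hN1 : 1 ≤ N) (hx : 2 ^ 2 ^ (N + 1) ≤ x) :
    ((S N x).card : ℝ) ≤ 240 * x / (2 ^ N * Real.log x) := by
  have hx16 : 16 ≤ x := by
    calc 16 = 2 ^ 2 ^ (1 + 1) := by norm_num
      _ ≤ 2 ^ 2 ^ (N + 1) :=
        Nat.pow_le_pow_right (by norm_num) (Nat.pow_le_pow_right (by norm_num) (by omega))
      _ ≤ x := hx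
  have hxR : (16 : ℝ) ≤ x := by exact_mod_cast hx16
  have hxpos : (0 : ℝ) < x := by linarith
  have hlogpos : 0 < Real.log x := Real.log_pos (by linarith)
  -- the modulus is at most `√x`
  have hq2 : q N ^ 2 ≤ x := by
    calc q N ^ 2 ≤ (2 ^ 2 ^ N) ^ 2 := Nat.pow_le_pow_left (q_le N hN1) 2
      _ = 2 ^ (2 ^ (N + 1)) := by rw [← pow_mul, ← pow_succ]
      _ ≤ x := hx
  have hqx : q N ≤ x := by
    have := q_pos N
    nlinarith
  -- `2 ^ N ≤ log x / (2 log 2)`
  have hpow : (2 : ℝ) ^ N ≤ Real.log x * (3 / 4) := by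
    have h2 : Real.log ((2 : ℝ) ^ 2 ^ (N + 1)) ≤ Real.log x := by
      apply Real.log_le_log (by positivity)
      exact_mod_cast hx
    rw [Real.log_pow] at h2
    have h3 : (2 : ℝ) / 3 ≤ Real.log 2 := by
      have := Real.log_two_gt_d9
      linarith
    have h4 : (((2 : ℕ) ^ (N + 1) : ℕ) : ℝ) = 2 ^ N * 2 := by push_cast; rw [pow_succ]
    rw [h4] at h2
    have h5 : (2 : ℝ) ^ N * 2 * (2 / 3) ≤ 2 ^ N * 2 * Real.log 2 :=
      mul_le_mul_of_nonneg_left h3 (by positivity)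
    linarith
  -- the sieving level
  set T := ⌊(x : ℝ) ^ ((1 : ℝ) / 20)⌋₊ with hTdef
  have hroot1 : (1 : ℝ) ≤ (x : ℝ) ^ ((1 : ℝ) / 20) :=
    Real.one_le_rpow (by linarith) (by norm_num)
  have hT1 : 1 ≤ T := by
    rw [hTdef]
    exact Nat.le_floor (by simpa using hroot1)
  have hTle : (T : ℝ) ≤ (x : ℝ) ^ ((1 : ℝ) / 20) := Nat.floor_le (by positivity)
  have hTlt : (x : ℝ) ^ ((1 : ℝ) / 20) < T + 1 := Nat.lt_floor_add_one _
  have hlogT : Real.log x / 20 ≤ Real.log (T + 1) := by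
    have h1 : Real.log ((x : ℝ) ^ ((1 : ℝ) / 20)) ≤ Real.log (T + 1) :=
      Real.log_le_log (by positivity) hTlt.le
    rw [Real.log_rpow hxpos] at h1
    linarith
  have hlogTpos : 0 < Real.log (T + 1) := by
    linarith [hlogT, div_pos hlogpos (by norm_num : (0:ℝ) < 20)]
  have hT6 : (T : ℝ) ^ 6 ≤ (x : ℝ) ^ ((3 : ℝ) / 10) := by
    calc (T : ℝ) ^ 6 ≤ ((x : ℝ) ^ ((1 : ℝ) / 20)) ^ 6 := pow_le_pow_left₀ (by positivity) hTle 6
      _ = (x : ℝ) ^ ((3 : ℝ) / 10) := by
        rw [← Real.rpow_natCast, ← Real.rpow_mul hxpos.le]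
        norm_num
  have hT1R : (1 : ℝ) ≤ T := by exact_mod_cast hT1
  have hTT6 : (T : ℝ) ≤ (T : ℝ) ^ 6 := le_self_pow₀ hT1R (by norm_num)
  have hqR : ((q N : ℕ) : ℝ) ≤ (x : ℝ) ^ ((1 : ℝ) / 2) := by
    rw [← Real.sqrt_eq_rpow]
    apply Real.le_sqrt_of_sq_le
    exact_mod_cast hq2
  have hrest : ((R N).card : ℝ) * (T + (T : ℝ) ^ 6) ≤ 150 * x / (2 ^ N * Real.log x) := by
    have h1 : ((R N).card : ℝ) ≤ (x : ℝ) ^ ((1 : ℝ) / 2) := by
      refine le_trans ?_ hqR
      exact_mod_cast card_R_le_q N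
    have h2 : (T : ℝ) + (T : ℝ) ^ 6 ≤ 2 * (x : ℝ) ^ ((3 : ℝ) / 10) := by linarith
    have h3 : ((R N).card : ℝ) * (T + (T : ℝ) ^ 6) ≤ 2 * (x : ℝ) ^ ((4 : ℝ) / 5) := by
      calc ((R N).card : ℝ) * (T + (T : ℝ) ^ 6)
          ≤ (x : ℝ) ^ ((1 : ℝ) / 2) * (2 * (x : ℝ) ^ ((3 : ℝ) / 10)) :=
            mul_le_mul h1 h2 (by positivity) (by positivity)
        _ = 2 * ((x : ℝ) ^ ((1 : ℝ) / 2) * (x : ℝ) ^ ((3 : ℝ) / 10)) := by ring
        _ = 2 * (x : ℝ) ^ ((4 : ℝ) / 5) := by
            rw [← Real.rpow_add hxpos]; norm_num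
    have h4 : Real.log x ≤ 10 * (x : ℝ) ^ ((1 : ℝ) / 10) := by
      have := Real.log_le_rpow_div hxpos.le (by norm_num : (0 : ℝ) < 1 / 10)
      have h5 : (x : ℝ) ^ ((1 : ℝ) / 10) / (1 / 10) = 10 * (x : ℝ) ^ ((1 : ℝ) / 10) := by ring
      rwa [h5] at this
    have h5 : (Real.log x) ^ 2 ≤ 100 * (x : ℝ) ^ ((1 : ℝ) / 5) := by
      calc (Real.log x) ^ 2 ≤ (10 * (x : ℝ) ^ ((1 : ℝ) / 10)) ^ 2 :=
            pow_le_pow_left₀ hlogpos.le h4 2
        _ = 100 * ((x : ℝ) ^ ((1 : ℝ) / 10) * (x : ℝ) ^ ((1 : ℝ) / 10)) := by ring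
        _ = 100 * (x : ℝ) ^ ((1 : ℝ) / 5) := by
            rw [← Real.rpow_add hxpos]; norm_num
    have h6 : (2 : ℝ) ^ N * Real.log x ≤ 75 * (x : ℝ) ^ ((1 : ℝ) / 5) := by
      calc (2 : ℝ) ^ N * Real.log x ≤ (Real.log x * (3 / 4)) * Real.log x :=
            mul_le_mul_of_nonneg_right hpow hlogpos.le
        _ = (3 / 4) * (Real.log x) ^ 2 := by ring
        _ ≤ (3 / 4) * (100 * (x : ℝ) ^ ((1 : ℝ) / 5)) :=
            mul_le_mul_of_nonneg_left h5 (by norm_num)
        _ = 75 * (x : ℝ) ^ ((1 : ℝ) / 5) := by ring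
    rw [le_div_iff₀ (by positivity)]
    calc ((R N).card : ℝ) * (T + (T : ℝ) ^ 6) * (2 ^ N * Real.log x)
        ≤ (2 * (x : ℝ) ^ ((4 : ℝ) / 5)) * (75 * (x : ℝ) ^ ((1 : ℝ) / 5)) :=
          mul_le_mul h3 h6 (by positivity) (by positivity)
      _ = 150 * ((x : ℝ) ^ ((4 : ℝ) / 5) * (x : ℝ) ^ ((1 : ℝ) / 5)) := by ring
      _ = 150 * x := by rw [← Real.rpow_add hxpos]; norm_num
  have hmain : 4 * (x : ℝ) / (2 ^ N * Real.log (T + 1)) ≤ 80 * x / (2 ^ N * Real.log x) := by
    rw [div_le_div_iff₀ (by positivity) (by positivity)]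
    have h2 : Real.log x ≤ 20 * Real.log (T + 1) := by linarith
    have h3 : (4 * x * 2 ^ N) * Real.log x ≤ (4 * x * 2 ^ N) * (20 * Real.log (T + 1)) :=
      mul_le_mul_of_nonneg_left h2 (by positivity)
    nlinarith
  have hfin := card_S_le x N T hN1 hT1
  have hm := main_term x N T hT1 hN1 hqx
  have hexp : ((R N).card : ℝ) * (T + ((x / q N + 1 : ℕ) : ℝ) / G T (q N) + (T : ℝ) ^ 6)
      = ((R N).card : ℝ) * (((x / q N + 1 : ℕ) : ℝ) / G T (q N))
        + ((R N).card : ℝ) * (T + (T : ℝ) ^ 6) := by ring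
  rw [hexp] at hfin
  have hsum : 240 * (x : ℝ) / (2 ^ N * Real.log x)
      = 80 * x / (2 ^ N * Real.log x) + 150 * x / (2 ^ N * Real.log x)
        + 10 * x / (2 ^ N * Real.log x) := by ring
  have hnn : 0 ≤ 10 * (x : ℝ) / (2 ^ N * Real.log x) := by positivity
  rw [hsum]
  linarith

/-- the level used for `x` -/
def lev (x : ℕ) : ℕ := Nat.log 2 (Nat.log 2 x) - 1

/-- **Early reducibility.** -/
theorem card_S_bound (x : ℕ) (hx : 2 ≤ x) :
    ((S (lev x) x).card : ℝ) ≤ 960 * x / (Real.log x) ^ 2 := by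
  by_cases h16 : 16 ≤ x
  · have hx0 : x ≠ 0 := by omega
    have hxR : (16 : ℝ) ≤ x := by exact_mod_cast h16
    have hxpos : (0 : ℝ) < x := by linarith
    have hlogpos : 0 < Real.log x := Real.log_pos (by linarith)
    set L := Nat.log 2 x with hL
    have hL4 : 4 ≤ L := by
      rw [hL]
      exact Nat.le_log_of_pow_le (by norm_num) (by norm_num; exact h16)
    have hL0 : L ≠ 0 := by omega
    have h2log : 2 ≤ Nat.log 2 L := Nat.le_log_of_pow_le (by norm_num) (by norm_num; exact hL4)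
    have hlev : lev x + 1 = Nat.log 2 L := by
      unfold lev; rw [← hL]; omega
    have hN1 : 1 ≤ lev x := by omega
    have h2N : 2 ^ (lev x + 1) ≤ L := hlev ▸ Nat.pow_log_le_self 2 hL0
    have h2N' : L < 2 ^ (lev x + 2) := by
      have := Nat.lt_pow_succ_log_self (b := 2) (by norm_num) L
      rw [← hlev] at this
      exact this
    have hxx : 2 ^ 2 ^ (lev x + 1) ≤ x :=
      (Nat.pow_le_pow_right (by norm_num) h2N).trans (Nat.pow_log_le_self 2 hx0)
    have h1 := card_S_uniform (lev x) x hN1 hxx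
    refine h1.trans ?_
    have hpow : Real.log x ≤ 4 * 2 ^ (lev x) := by
      have h1 : x < 2 ^ (L + 1) := Nat.lt_pow_succ_log_self (by norm_num) x
      have h2 : Real.log x ≤ Real.log ((2 : ℝ) ^ (L + 1)) := by
        apply Real.log_le_log hxpos
        exact_mod_cast h1.le
      rw [Real.log_pow] at h2
      have h3 : Real.log 2 ≤ 1 := by
        have := Real.log_two_lt_d9
        linarith
      have h4 : ((L + 1 : ℕ) : ℝ) ≤ 4 * 2 ^ (lev x) := by
        have : L + 1 ≤ 2 ^ (lev x + 2) := h2N'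
        have h5 : ((L + 1 : ℕ) : ℝ) ≤ ((2 ^ (lev x + 2) : ℕ) : ℝ) := by exact_mod_cast this
        refine h5.trans (le_of_eq ?_)
        push_cast
        rw [pow_add]
        ring
      have h6 : ((L + 1 : ℕ) : ℝ) * Real.log 2 ≤ ((L + 1 : ℕ) : ℝ) * 1 :=
        mul_le_mul_of_nonneg_left h3 (by positivity)
      linarith
    rw [div_le_div_iff₀ (by positivity) (by positivity)]
    have h3 : (240 * x * Real.log x) * Real.log x ≤ (240 * x * Real.log x) * (4 * 2 ^ (lev x)) :=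
      mul_le_mul_of_nonneg_left hpow (by positivity)
    nlinarith
  · push Not at h16
    have hxR : (2 : ℝ) ≤ x := by exact_mod_cast hx
    have hlogpos : 0 < Real.log x := Real.log_pos (by linarith)
    have h1 : (S (lev x) x).card ≤ x := by
      have : S (lev x) x ⊆ Icc 1 x := by
        intro p hp
        obtain ⟨h1, h2, _⟩ := mem_S.1 hp
        exact Finset.mem_Icc.2 ⟨h2.pos, h1⟩
      simpa using Finset.card_le_card this
    have h2 : Real.log x ≤ 4 := by
      have h3 : Real.log x ≤ Real.log ((2 : ℝ) ^ 4) := by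
        apply Real.log_le_log (by linarith)
        norm_num
        exact_mod_cast h16.le
      rw [Real.log_pow] at h3
      have := Real.log_two_lt_d9
      push_cast at h3
      linarith
    rw [le_div_iff₀ (by positivity)]
    have h3 : ((S (lev x) x).card : ℝ) ≤ x := by exact_mod_cast h1
    have h4 : (Real.log x) ^ 2 ≤ 16 := by nlinarith
    calc ((S (lev x) x).card : ℝ) * (Real.log x) ^ 2 ≤ x * 16 :=
          mul_le_mul h3 h4 (by positivity) (by positivity)
      _ ≤ 960 * x := by nlinarith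

/-- `X ^ 2 + 1` is stable modulo `p`. -/
def Stable (p : ℕ) : Prop := ∀ n : ℕ, 1 ≤ n → Irr n p

lemma Irr_zero {p : ℕ} (hp : p.Prime) : Irr 0 p := by
  have := Fact.mk hp
  exact Polynomial.irreducible_X

lemma Stable.all {p : ℕ} (hp : p.Prime) (h : Stable p) (n : ℕ) : Irr n p := by
  rcases Nat.eq_zero_or_pos n with rfl | hn
  · exact Irr_zero hp
  · exact h n hn

/-- **The sum of the reciprocals of the stable primes converges.** -/
theorem summable_S : Summable fun p : {p : ℕ // p.Prime ∧ Stable p} => (1 : ℝ) / (p : ℕ) := by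
  classical
  let P : Set ℕ := {p | p.Prime ∧ Stable p}
  change Summable ((fun n : ℕ => (1 : ℝ) / n) ∘ (Subtype.val : P → ℕ))
  rw [summable_subtype_iff_indicator]
  have hnn : ∀ n, 0 ≤ P.indicator (fun n : ℕ => (1 : ℝ) / n) n := fun n =>
    Set.indicator_nonneg (fun _ _ => by positivity) n
  have hs2 : Summable fun k : ℕ => (1 : ℝ) / ((k : ℝ) + 1) ^ 2 := by
    have := (summable_nat_add_iff 1).2 (Real.summable_one_div_nat_pow.2 (by norm_num : 1 < 2))
    simpa using this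
  set D : ℝ := 1920 / (Real.log 2) ^ 2 with hD
  have hlog2 : 0 < Real.log 2 := Real.log_pos (by norm_num)
  have hDpos : 0 < D := by positivity
  have hblock : ∀ K : ℕ, ∑ n ∈ range (2 ^ K), P.indicator (fun n : ℕ => (1 : ℝ) / n) n
      ≤ D * ∑ k ∈ range K, (1 : ℝ) / ((k : ℝ) + 1) ^ 2 := by
    intro K
    induction K with
    | zero =>
      simp only [pow_zero, Finset.range_one, Finset.sum_singleton, Finset.range_zero,
        Finset.sum_empty, mul_zero]
      apply le_of_eq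
      apply Set.indicator_of_notMem
      intro h
      exact Nat.not_prime_zero h.1
    | succ K ih =>
      have hle : 2 ^ K ≤ 2 ^ (K + 1) := Nat.pow_le_pow_right (by norm_num) (by omega)
      rw [← Finset.sum_range_add_sum_Ico _ hle, Finset.sum_range_succ, mul_add]
      refine add_le_add ih ?_
      have h1 : ∑ n ∈ Ico (2 ^ K) (2 ^ (K + 1)), P.indicator (fun n : ℕ => (1 : ℝ) / n) n
          ≤ ((S (lev (2 ^ (K + 1))) (2 ^ (K + 1))).card : ℝ) * (1 / 2 ^ K) := by
        rw [← nsmul_eq_mul, ← Finset.sum_const]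
        rw [← Finset.sum_filter_add_sum_filter_not _ (fun n => n ∈ P)]
        have h2 : ∑ n ∈ (Ico (2 ^ K) (2 ^ (K + 1))).filter (fun n => ¬ n ∈ P),
            P.indicator (fun n : ℕ => (1 : ℝ) / n) n = 0 := by
          apply Finset.sum_eq_zero
          intro n hn
          exact Set.indicator_of_notMem (Finset.mem_filter.1 hn).2 _
        rw [h2, add_zero]
        calc ∑ n ∈ (Ico (2 ^ K) (2 ^ (K + 1))).filter (fun n => n ∈ P),
              P.indicator (fun n : ℕ => (1 : ℝ) / n) n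
            ≤ ∑ n ∈ (Ico (2 ^ K) (2 ^ (K + 1))).filter (fun n => n ∈ P), (1 : ℝ) / 2 ^ K := by
              refine Finset.sum_le_sum fun n hn => ?_
              obtain ⟨h3, h4⟩ := Finset.mem_filter.1 hn
              rw [Set.indicator_of_mem h4]
              apply one_div_le_one_div_of_le (by positivity)
              exact_mod_cast (Finset.mem_Ico.1 h3).1
          _ ≤ ∑ n ∈ S (lev (2 ^ (K + 1))) (2 ^ (K + 1)), (1 : ℝ) / 2 ^ K := by
              apply Finset.sum_le_sum_of_subset_of_nonneg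
              · intro n hn
                obtain ⟨h3, h4⟩ := Finset.mem_filter.1 hn
                exact mem_S.2 ⟨(Finset.mem_Ico.1 h3).2.le, h4.1, h4.2.all h4.1 _⟩
              · intro _ _ _; positivity
      refine h1.trans ?_
      have h2 := card_S_bound (2 ^ (K + 1)) (by
        calc 2 = 2 ^ 1 := by norm_num
          _ ≤ 2 ^ (K + 1) := Nat.pow_le_pow_right (by norm_num) (by omega))
      have h3 : Real.log ((2 ^ (K + 1) : ℕ) : ℝ) = (K + 1) * Real.log 2 := by
        push_cast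
        rw [Real.log_pow]
        push_cast
        ring
      rw [h3] at h2
      refine (mul_le_mul_of_nonneg_right h2 (by positivity)).trans (le_of_eq ?_)
      rw [hD]
      push_cast
      have hK : (0 : ℝ) < (K : ℝ) + 1 := by positivity
      have h2K : (0 : ℝ) < 2 ^ K := by positivity
      rw [pow_succ]
      field_simp
      ring
  refine summable_of_sum_range_le (c := D * ∑' k : ℕ, (1 : ℝ) / ((k : ℝ) + 1) ^ 2) hnn ?_
  intro n
  have h1 : n ≤ 2 ^ n := Nat.lt_two_pow_self.le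
  calc ∑ i ∈ range n, P.indicator (fun n : ℕ => (1 : ℝ) / n) i
      ≤ ∑ i ∈ range (2 ^ n), P.indicator (fun n : ℕ => (1 : ℝ) / n) i :=
        Finset.sum_le_sum_of_subset_of_nonneg (Finset.range_subset_range.2 h1)
          fun i _ _ => hnn i
    _ ≤ D * ∑ k ∈ range n, (1 : ℝ) / ((k : ℝ) + 1) ^ 2 := hblock n
    _ ≤ D * ∑' k : ℕ, (1 : ℝ) / ((k : ℝ) + 1) ^ 2 := by
        refine mul_le_mul_of_nonneg_left ?_ hDpos.le
        exact hs2.sum_le_tsum _ fun _ _ => by positivity

end Pool.Agent.StableX
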