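import Mathlib

/-!
# The critical orbit of `x ^ 2 + 1` and its quadratic characters

`a n` is the `n`-th iterate of `x ^ 2 + 1` at `0`; `M k = a k ^ 2 + a k + 1 = a (k + 1) + a k`.
The numbers `a 2, a 3, …` are independent modulo squares.
-/

namespace Pool.Agent.StableX

open NumberTheorySymbols

/-- The critical orbit of `x ^ 2 + 1`. -/
def a : ℕ → ℕ
  | 0 => 0
  | n + 1 => a n ^ 2 + 1

lemma a_zero : a 0 = 0 := rfl
lemma a_succ (n : ℕ) : a (n + 1) = a n ^ 2 + 1 := rfl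
lemma a_one : a 1 = 1 := rfl
lemma a_two : a 2 = 2 := rfl

lemma a_pos (n : ℕ) : 0 < a (n + 1) := by rw [a_succ]; positivity

lemma a_ge_two (n : ℕ) (hn : 2 ≤ n) : 2 ≤ a n := by
  induction n, hn using Nat.le_induction with
  | base => decide
  | succ n _ ih => rw [a_succ]; nlinarith

/-- `a (j + k) ≡ a k` modulo `a j`. -/
lemma a_add_modEq (j k : ℕ) : a (j + k) ≡ a k [MOD a j] := by
  induction k with
  | zero => simp [a_zero, Nat.ModEq]
  | succ k ih =>
    rw [← add_assoc, a_succ, a_succ]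
    exact (ih.pow 2).add_right 1

lemma a_dvd_mul (j t : ℕ) : a j ∣ a (j * t) := by
  induction t with
  | zero => simp [a_zero]
  | succ t ih =>
    have h := a_add_modEq j (j * t)
    have h2 : j * (t + 1) = j + j * t := by ring
    rw [h2]
    exact (h.dvd_iff (dvd_refl _)).2 ih

/-- The residues of the critical orbit. -/
lemma a_mod (k : ℕ) : (a (2 * k + 1) % 4 = 1) ∧ (a (2 * k + 2) % 8 = 2) := by
  induction k with
  | zero => decide
  | succ k ih =>
    obtain ⟨_, h2⟩ := ih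
    have h3 : a (2 * (k + 1) + 1) % 4 = 1 := by
      have : 2 * (k + 1) + 1 = (2 * k + 2) + 1 := by ring
      rw [this, a_succ, Nat.add_mod, Nat.pow_mod]
      have : a (2 * k + 2) % 4 = 2 := by omega
      rw [this]
    refine ⟨h3, ?_⟩
    have h4 : 2 * (k + 1) + 2 = (2 * (k + 1) + 1) + 1 := by ring
    rw [h4, a_succ, Nat.add_mod, Nat.pow_mod]
    have : a (2 * (k + 1) + 1) % 8 = 1 ∨ a (2 * (k + 1) + 1) % 8 = 5 := by omega
    rcases this with h | h <;> rw [h]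

/-- The auxiliary modulus. -/
def M (k : ℕ) : ℕ := a k ^ 2 + a k + 1

lemma M_eq (k : ℕ) : M k = a (k + 1) + a k := by rw [M, a_succ]; ring

lemma M_odd (k : ℕ) : Odd (M k) := by
  have h : Even (a k * (a k + 1)) := Nat.even_mul_succ_self _
  have : M k = a k * (a k + 1) + 1 := by rw [M]; ring
  rw [this]
  exact h.add_one

lemma M_mod_four (k : ℕ) (hk : 1 ≤ k) : M k % 4 = 3 := by
  have h : a k % 4 = 1 ∨ a k % 4 = 2 := by
    obtain ⟨m, hm | hm⟩ : ∃ m, k = 2 * m + 1 ∨ k = 2 * m + 2 := by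
      refine ⟨(k - 1) / 2, ?_⟩; omega
    · left; rw [hm]; exact (a_mod m).1
    · right; have := (a_mod m).2; rw [hm]; omega
  rw [M, Nat.add_mod, Nat.add_mod (a k ^ 2), Nat.pow_mod]
  rcases h with h | h <;> rw [h]

/-- from index `k + 1` on the orbit is constant modulo `M k` -/
lemma a_modEq_M (k j : ℕ) (hj : k + 1 ≤ j) : (a j : ℤ) ≡ -(a k : ℤ) [ZMOD M k] := by
  induction j, hj using Nat.le_induction with
  | base =>
    refine (Int.modEq_iff_dvd).2 ⟨-1, ?_⟩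
    rw [M_eq]; push_cast; ring
  | succ j _ ih =>
    rw [a_succ]
    push_cast
    have h1 := (ih.pow 2).add_right 1
    refine h1.trans ?_
    refine (Int.modEq_iff_dvd).2 ⟨-1, ?_⟩
    rw [M]; push_cast; ring

/-- The Jacobi symbol of `a k` modulo `M k` is one. -/
lemma jacobi_self (k : ℕ) (hk : 1 ≤ k) : J((a k : ℤ) | M k) = 1 := by
  obtain ⟨m, hm | hm⟩ : ∃ m, k = 2 * m + 1 ∨ k = 2 * m + 2 := by
    refine ⟨(k - 1) / 2, ?_⟩; omega
  · have h1 : a k % 4 = 1 := by rw [hm]; exact (a_mod m).1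
    rw [jacobiSym.quadratic_reciprocity_one_mod_four h1 (M_odd k), jacobiSym.mod_left]
    have h2 : ((M k : ℕ) : ℤ) % (a k : ℤ) = 1 % (a k : ℤ) := by
      refine (Int.modEq_iff_dvd).2 ⟨-(a k + 1 : ℤ), ?_⟩
      rw [M]; push_cast; ring
    rw [h2, ← jacobiSym.mod_left, jacobiSym.one_left]
  · have h1 : a k % 8 = 2 := by rw [hm]; exact (a_mod m).2
    obtain ⟨b, hb⟩ : ∃ b, a k = 2 * b := ⟨a k / 2, by omega⟩
    have hb4 : b % 4 = 1 := by omega
    have hM8 : M k % 8 = 7 := by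
      rw [M, Nat.add_mod, Nat.add_mod (a k ^ 2), Nat.pow_mod, h1]
    rw [hb]
    push_cast
    rw [jacobiSym.mul_left, jacobiSym.at_two (M_odd k), jacobiSym.quadratic_reciprocity_one_mod_four
      hb4 (M_odd k), jacobiSym.mod_left]
    have h2 : ((M k : ℕ) : ℤ) % (b : ℤ) = 1 % (b : ℤ) := by
      refine (Int.modEq_iff_dvd).2 ⟨-(2 * (2 * b + 1) : ℤ), ?_⟩
      rw [M, hb]; push_cast; ring
    rw [h2, ← jacobiSym.mod_left, jacobiSym.one_left, mul_one]
    have h3 : ((M k : ℕ) : ZMod 8) = 7 := by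
      rw [← ZMod.natCast_mod, hM8]; rfl
    rw [h3]
    decide

/-- For `j > k ≥ 1` the Jacobi symbol of `a j` modulo `M k` is minus one. -/
lemma jacobi_gt (k j : ℕ) (hk : 1 ≤ k) (hj : k + 1 ≤ j) : J((a j : ℤ) | M k) = -1 := by
  rw [jacobiSym.mod_left' (a_modEq_M k j hj), jacobiSym.neg _ (M_odd k), jacobi_self k hk, mul_one]
  exact ZMod.χ₄_nat_three_mod_four (M_mod_four k hk)

/-- `M k` is coprime to all `a j`. -/
lemma coprime_M (k j : ℕ) (hj : 1 ≤ j) : (a j).Coprime (M k) := by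
  by_contra h
  obtain ⟨l, hl, h1, h2⟩ := Nat.Prime.not_coprime_iff_dvd.1 h
  have h3 : k + 1 ≤ j * (k + 1) := Nat.le_mul_of_pos_left _ hj
  have e1 := a_modEq_M k (j * (k + 1)) h3
  have e2 := a_modEq_M k (j * (k + 1) + 1) (by omega)
  have e3 : ((a (j * (k + 1) + 1) : ℕ) : ℤ) ≡ (a (j * (k + 1)) : ℤ) [ZMOD l] :=
    (e2.trans e1.symm).of_dvd (by exact_mod_cast h2)
  have e4 : ((a (j * (k + 1)) : ℕ) : ℤ) ≡ 0 [ZMOD l] := by
    rw [Int.modEq_zero_iff_dvd]
    exact_mod_cast h1.trans (a_dvd_mul j (k + 1))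
  rw [a_succ] at e3
  push_cast at e3
  have e5 : ((a (j * (k + 1)) : ℕ) : ℤ) ^ 2 + 1 ≡ 0 ^ 2 + 1 [ZMOD l] := (e4.pow 2).add_right 1
  have e6 : (0 : ℤ) ^ 2 + 1 ≡ 0 [ZMOD l] := e5.symm.trans (e3.trans e4)
  rw [Int.modEq_zero_iff_dvd] at e6
  have e7 : (l : ℤ) ∣ 1 := by simpa using e6
  have e8 : l ∣ 1 := by exact_mod_cast e7
  exact hl.one_lt.ne' (Nat.dvd_one.1 e8)

end Pool.Agent.StableX
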